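import Pool.Agent.N70.PP.Stm2
import Pool.Agent.N216.EP.Uni

/-!
Project PP (helper70), piece UNIP: the versal Galois extension with group `H` in characteristic `p`
and the passage to it after a purely transcendental extension (helper933, adapted from the file
`N216/EP/Uni.lean` of helper216).
-/

set_option autoImplicit false
set_option linter.unusedSectionVars false

namespace Pool.Agent.N933.PP

open Pool.Agent.N70.EP (Ext2 Desc)
open Pool.Agent.N70.PP
open Pool.Agent.N216.EP (lin_sub ded)

/-! ### The iteration -/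

theorem iter (h1 : St_onep) (d : ℕ) (K L : Type) [Field K] [Infinite K] [Field L] [Algebra K L]
    [FiniteDimensional K L] [IsGalois K L] :
    ∃ (K₁ L₁ : Type) (_ : Field K₁) (_ : Field L₁) (_ : Algebra K₁ L₁)
      (_ : FiniteDimensional K₁ L₁) (_ : IsGalois K₁ L₁) (_ : Algebra K K₁) (_ : Algebra L L₁)
      (f : (L₁ ≃ₐ[K₁] L₁) ≃* (L ≃ₐ[K] L)) (w : Fin d → K₁), Ext2 K L K₁ L₁ f ∧ Desc K L K₁ L₁ f ∧
      AlgebraicIndependent K w := by
  induction d with
  | zero =>
    refine ⟨K, L, inferInstance, inferInstance, inferInstance, inferInstance, inferInstance,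
      Algebra.id K, Algebra.id L, MulEquiv.refl _, Fin.elim0, ⟨fun x => rfl, fun σ x => rfl⟩,
      fun E _ _ α h => h, ?_⟩
    exact (algebraicIndependent_empty_type_iff).2 (RingHom.injective _)
  | succ d ih =>
    obtain ⟨K₁, L₁, _, _, _, _, _, _, _, f, w, hE, hD, hw⟩ := ih
    have : Infinite K₁ := Infinite.of_injective (algebraMap K K₁) (algebraMap K K₁).injective
    obtain ⟨_, _, _, f', hE', hD'⟩ := h1 K₁ L₁
    let iK : Algebra K (RatFunc K₁) :=
      ((algebraMap K₁ (RatFunc K₁)).comp (algebraMap K K₁)).toAlgebra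
    let iL : Algebra L (RatFunc L₁) :=
      ((algebraMap L₁ (RatFunc L₁)).comp (algebraMap L L₁)).toAlgebra
    have tK : @IsScalarTower K K₁ (RatFunc K₁) _ _ iK.toSMul :=
      @IsScalarTower.of_algebraMap_eq K K₁ (RatFunc K₁) _ _ _ _ _ iK fun x => rfl
    refine ⟨RatFunc K₁, RatFunc L₁, inferInstance, inferInstance, inferInstance, inferInstance,
      inferInstance, iK, iL, f'.trans f, (Sum.elim (fun _ : Fin 1 => RatFunc.X)
        (algebraMap K₁ (RatFunc K₁) ∘ w) : Fin 1 ⊕ Fin d → RatFunc K₁) ∘
          (finSumFinEquiv.trans (finCongr (Nat.add_comm 1 d))).symm,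
      ⟨fun x => ?_, fun σ x => ?_⟩, fun E _ _ α h => ?_, ?_⟩
    · change algebraMap (RatFunc K₁) (RatFunc L₁) (algebraMap K₁ (RatFunc K₁) (algebraMap K K₁ x)) =
        algebraMap L₁ (RatFunc L₁) (algebraMap L L₁ (algebraMap K L x))
      rw [hE'.comm, hE.comm]
    · change σ (algebraMap L₁ (RatFunc L₁) (algebraMap L L₁ x)) =
        algebraMap L₁ (RatFunc L₁) (algebraMap L L₁ (f (f' σ) x))
      rw [hE'.res, hE.res]
    · exact hD E α (hD' E _ h)
    · refine (algebraicIndependent_equiv _).2 ?_
      refine @AlgebraicIndependent.sumElim_comp (Fin d) K K₁ (RatFunc K₁) _ _ _ _ iK _ tK (Fin 1)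
        w _ hw ?_
      exact (algebraicIndependent_singleton_iff (0 : Fin 1)).2 RatFunc.transcendental_X

/-! ### The versal extension -/

section versal

variable (p : ℕ) [Fact p.Prime] (H : Type) [Group H] [Finite H]

/-- The field of rational functions. -/
abbrev LZ : Type := FractionRing (MvPolynomial H (ZMod p))

theorem mv_ext (e e' : MvPolynomial H (ZMod p) ≃ₐ[ZMod p] MvPolynomial H (ZMod p))
    (h : ∀ x, e (MvPolynomial.X x) = e' (MvPolynomial.X x)) : e = e' := by
  have h1 : (e : MvPolynomial H (ZMod p) →ₐ[ZMod p] MvPolynomial H (ZMod p)) = e' :=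
    MvPolynomial.algHom_ext fun x => h x
  exact AlgEquiv.coe_toAlgHom_injective h1

/-- The permutation of the variables. -/
noncomputable def permH : H →* (MvPolynomial H (ZMod p) ≃ₐ[ZMod p] MvPolynomial H (ZMod p)) where
  toFun h := MvPolynomial.renameEquiv (ZMod p) (Equiv.mulLeft h)
  map_one' := by
    refine mv_ext p H _ _ fun x => ?_
    simp only [MvPolynomial.renameEquiv_apply, MvPolynomial.rename_X, Equiv.coe_mulLeft, one_mul,
      AlgEquiv.one_apply]
  map_mul' h h' := by
    refine mv_ext p H _ _ fun x => ?_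
    rw [AlgEquiv.mul_apply]
    simp only [MvPolynomial.renameEquiv_apply, MvPolynomial.rename_X, Equiv.coe_mulLeft, mul_assoc]

theorem permH_X (h x : H) : permH p H h (MvPolynomial.X x) = MvPolynomial.X (h * x) := by
  change MvPolynomial.renameEquiv (ZMod p) (Equiv.mulLeft h) (MvPolynomial.X x) = _
  rw [MvPolynomial.renameEquiv_apply, MvPolynomial.rename_X, Equiv.coe_mulLeft]

/-- The action on the field of rational functions. -/
noncomputable def actH : H →* (LZ p H ≃ₐ[ZMod p] LZ p H) :=
  (IsFractionRing.fieldEquivOfAlgEquivHom (A := ZMod p) (B := MvPolynomial H (ZMod p)) (ZMod p) (LZ p H)).comp (permH p H)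

theorem actH_X (h x : H) :
    actH p H h (algebraMap (MvPolynomial H (ZMod p)) (LZ p H) (MvPolynomial.X x)) =
    algebraMap (MvPolynomial H (ZMod p)) (LZ p H) (MvPolynomial.X (h * x)) := by
  rw [actH, MonoidHom.comp_apply, IsFractionRing.fieldEquivOfAlgEquivHom_apply,
    IsFractionRing.fieldEquivOfAlgEquiv_algebraMap, permH_X]

theorem actH_inj : Function.Injective (actH p H) := by
  intro h h' hh
  have h1 : actH p H h (algebraMap (MvPolynomial H (ZMod p)) (LZ p H) (MvPolynomial.X 1)) =
    actH p H h' (algebraMap (MvPolynomial H (ZMod p)) (LZ p H) (MvPolynomial.X 1)) := by rw [hh]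
  simp only [actH_X, mul_one] at h1
  exact MvPolynomial.X_injective (IsFractionRing.injective (MvPolynomial H (ZMod p)) (LZ p H) h1)

end versal

/-- Ring homomorphisms from the field of rational functions. -/
theorem lz_ext (p : ℕ) [Fact p.Prime] (H A : Type) [Field A] (F G : LZ p H →+* A)
    (h : ∀ x, F (algebraMap (MvPolynomial H (ZMod p)) (LZ p H) (MvPolynomial.X x)) =
      G (algebraMap (MvPolynomial H (ZMod p)) (LZ p H) (MvPolynomial.X x))) : F = G := by
  refine IsLocalization.ringHom_ext (nonZeroDivisors (MvPolynomial H (ZMod p))) ?_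
  refine MvPolynomial.ringHom_ext (fun q => ?_) fun x => h x
  have h1 : (F.comp (algebraMap (MvPolynomial H (ZMod p)) (LZ p H))).comp MvPolynomial.C =
    (G.comp (algebraMap (MvPolynomial H (ZMod p)) (LZ p H))).comp MvPolynomial.C := Subsingleton.elim _ _
  exact congrArg (fun f : ZMod p →+* A => f q) h1

/-- UNIP, from ONEP. -/
theorem uni_ofp : St_onep → St_unip := by
  intro h1 p _ H _ _
  classical
  have := Fintype.ofFinite H
  let act : MulSemiringAction H (LZ p H) := MulSemiringAction.compHom (LZ p H) (actH p H)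
  have hact : ∀ (h : H) (x : LZ p H), h • x = actH p H h x := fun h x => rfl
  have hff : FaithfulSMul H (LZ p H) :=
    ⟨fun {h h'} hh => actH_inj p H (AlgEquiv.ext fun x => hh x)⟩
  have hcharL : CharP (LZ p H) p :=
    charP_of_injective_algebraMap (algebraMap (ZMod p) (LZ p H)).injective p
  have hchar : CharP (FixedPoints.subfield H (LZ p H)) p :=
    RingHom.charP (algebraMap (FixedPoints.subfield H (LZ p H)) (LZ p H))
      (algebraMap (FixedPoints.subfield H (LZ p H)) (LZ p H)).injective p
  have hinf : Infinite (FixedPoints.subfield H (LZ p H)) := by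
    by_contra hcon
    rw [not_infinite_iff_finite] at hcon
    have h3 : Finite (LZ p H) :=
      Module.finite_of_finite (FixedPoints.subfield H (LZ p H))
    have h4 : Infinite (MvPolynomial H (ZMod p)) := MvPolynomial.infinite_of_nonempty H (ZMod p)
    have h5 : Infinite (LZ p H) := Infinite.of_injective
      (algebraMap (MvPolynomial H (ZMod p)) (LZ p H))
      (IsFractionRing.injective (MvPolynomial H (ZMod p)) (LZ p H))
    exact not_finite (LZ p H)
  refine ⟨FixedPoints.subfield H (LZ p H), LZ p H, inferInstance, hchar, hinf, inferInstance,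
    inferInstance, inferInstance, inferInstance, (FixedPoints.toAlgAutMulEquiv H (LZ p H)).symm, ?_⟩
  intro K L _ _ _ _ _ _ _ ε
  have hcard : Module.finrank K L = Fintype.card H := by
    rw [← IsGalois.card_aut_eq_finrank K L, Nat.card_congr ε.toEquiv, Nat.card_eq_fintype_card]
  let b : Module.Basis H K L :=
    (Module.finBasis K L).reindex ((finCongr hcard).trans (Fintype.equivFin H).symm)
  obtain ⟨c, hc⟩ := ded (fun h => ε.symm h) ε.symm.injective b
  obtain ⟨K₁, L₁, _, _, _, _, _, _, _, f, w, hE, hD, hw⟩ := iter h1 (Fintype.card H) K L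
  let iKL : Algebra K L₁ := ((algebraMap K₁ L₁).comp (algebraMap K K₁)).toAlgebra
  have t1 : IsScalarTower K K₁ L₁ := IsScalarTower.of_algebraMap_eq fun x => rfl
  have t2 : IsScalarTower K L L₁ := IsScalarTower.of_algebraMap_eq fun x => hE.comm x
  have cL : CharP L p := charP_of_injective_algebraMap (algebraMap K L).injective p
  have cL1 : CharP L₁ p := charP_of_injective_algebraMap (algebraMap L L₁).injective p
  let aL : Algebra (ZMod p) L := ZMod.algebra L p
  let aL1 : Algebra (ZMod p) L₁ := ZMod.algebra L₁ p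
  have t3 : IsScalarTower (ZMod p) L L₁ :=
    IsScalarTower.of_algebraMap_eq' (Subsingleton.elim _ _)
  let w' : H → L₁ := fun h => algebraMap K₁ L₁ (w (Fintype.equivFin H h))
  have hw1 : AlgebraicIndependent K w' :=
    (hw.map' (f := IsScalarTower.toAlgHom K K₁ L₁) (RingHom.injective _)).comp _
      (Fintype.equivFin H).injective
  have hw2 : AlgebraicIndependent L w' := hw1.extendScalars L
  have hy := lin_sub w' hw2 _ c hc
  set y : H → L₁ := fun h => ∑ j, algebraMap L L₁ (ε.symm h (b j)) * w' j with hydef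
  have hy' : AlgebraicIndependent L y := hy
  have hyQ : AlgebraicIndependent (ZMod p) y := hy'.restrictScalars (algebraMap (ZMod p) L).injective
  let g : MvPolynomial H (ZMod p) →+* L₁ :=
    ((MvPolynomial.aeval y : MvPolynomial H (ZMod p) →ₐ[ZMod p] L₁) : MvPolynomial H (ZMod p) →+* L₁)
  have hg : Function.Injective g := hyQ
  let G : LZ p H →+* L₁ := IsFractionRing.lift hg
  have hGX : ∀ x, G (algebraMap (MvPolynomial H (ZMod p)) (LZ p H) (MvPolynomial.X x)) = y x := by
    intro x
    have h2 : G (algebraMap (MvPolynomial H (ZMod p)) (LZ p H) (MvPolynomial.X x)) = g (MvPolynomial.X x) :=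
      IsFractionRing.lift_algebraMap hg _
    rw [h2]
    exact MvPolynomial.aeval_X _ _
  have hyσ : ∀ (σ : L₁ ≃ₐ[K₁] L₁) (h : H), σ (y h) = y (ε (f σ) * h) := by
    intro σ h
    simp only [hydef]
    rw [map_sum]
    refine Finset.sum_congr rfl fun j _ => ?_
    rw [map_mul, hE.res]
    congr 1
    · congr 1
      rw [map_mul, MulEquiv.symm_apply_apply, AlgEquiv.mul_apply]
    · exact σ.commutes _
  have hGσ : ∀ (σ : L₁ ≃ₐ[K₁] L₁) (z : LZ p H), σ (G z) = G (actH p H (ε (f σ)) z) := by
    intro σ z
    have h2 : ((σ : L₁ ≃+* L₁) : L₁ →+* L₁).comp G =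
        G.comp ((actH p H (ε (f σ)) : LZ p H ≃+* LZ p H) : LZ p H →+* LZ p H) := by
      refine lz_ext p H L₁ _ _ fun x => ?_
      change σ (G (algebraMap (MvPolynomial H (ZMod p)) (LZ p H) (MvPolynomial.X x))) =
        G (actH p H (ε (f σ)) (algebraMap (MvPolynomial H (ZMod p)) (LZ p H) (MvPolynomial.X x)))
      rw [hGX, actH_X, hGX, hyσ]
    exact congrArg (fun F : LZ p H →+* L₁ => F z) h2
  have hfix : ∀ x : FixedPoints.subfield H (LZ p H), ∃ k : K₁, algebraMap K₁ L₁ k = G x := by
    intro x
    have h3 := (IsGalois.mem_range_algebraMap_iff_fixed (F := K₁) (E := L₁) (G x)).2 (fun σ => by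
      rw [hGσ]
      congr 1
      exact x.2 (ε (f σ)))
    exact h3
  choose j hj using hfix
  have hinj := (algebraMap K₁ L₁).injective
  let jh : FixedPoints.subfield H (LZ p H) →+* K₁ :=
    { toFun := j
      map_one' := hinj (by rw [hj, map_one]; exact map_one G)
      map_mul' := fun x y => hinj (by rw [hj, map_mul, hj, hj]; exact map_mul G _ _)
      map_zero' := hinj (by rw [hj, map_zero]; exact map_zero G)
      map_add' := fun x y => hinj (by rw [hj, map_add, hj, hj]; exact map_add G _ _) }
  let i1 : Algebra (FixedPoints.subfield H (LZ p H)) K₁ := jh.toAlgebra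
  let i2 : Algebra (LZ p H) L₁ := G.toAlgebra
  have hE2 : Ext2 (FixedPoints.subfield H (LZ p H)) (LZ p H) K₁ L₁
      (f.trans (ε.trans (FixedPoints.toAlgAutMulEquiv H (LZ p H)))) :=
    { comm := fun x => hj x
      res := fun σ x => hGσ σ x }
  exact ⟨K₁, L₁, inferInstance, inferInstance, inferInstance, inferInstance, inferInstance,
    inferInstance, inferInstance, i1, i2, f,
    f.trans (ε.trans (FixedPoints.toAlgAutMulEquiv H (LZ p H))), hE, hE2,
    fun σ => (MulEquiv.symm_apply_apply _ _).symm, hD⟩

end Pool.Agent.N933.PP
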